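import Pool.Agent.Q74.AR.Def

/-! # Project AR of helper74: JOB Occ (helper144). Expected occupation times of the residue classes of the
level of the pair chain before level `0` is reached. -/

set_option autoImplicit false

namespace Pool.Agent.Q144.AR

open Finset
open Pool.Agent.Q158.Pair (step av w w0 av_even av_odd_succ w_odd av_w_succ w_le
  av_mono av_add state_cases e)
open Pool.Agent.Q74.AR

/-- the potential of the residue class `0` modulo `2 ^ k` -/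
noncomputable def gg (k : ℕ) (x : ℤ) : ℝ :=
  ((x % 2 ^ k : ℤ) : ℝ) * (2 ^ k - ((x % 2 ^ k : ℤ) : ℝ)) / 2 ^ k

lemma emod_succ (N : ℤ) (hN : 0 < N) (x : ℤ) :
    (x + 1) % N = if x % N + 1 = N then 0 else x % N + 1 := by
  have hx : x = N * (x / N) + x % N := (Int.mul_ediv_add_emod x N).symm
  have h0 := Int.emod_nonneg x hN.ne'
  have h1 := Int.emod_lt_of_pos x hN
  generalize x % N = y at *
  split_ifs with h
  · apply Int.emod_eq_zero_of_dvd
    exact ⟨x / N + 1, by rw [mul_add, mul_one]; linarith⟩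
  · have h2 : x + 1 = (y + 1) + N * (x / N) := by linarith
    rw [h2, Int.add_mul_emod_self_left, Int.emod_eq_of_lt (by omega) (by omega)]

lemma emod_pred (N : ℤ) (hN : 0 < N) (x : ℤ) :
    (x - 1) % N = if x % N = 0 then N - 1 else x % N - 1 := by
  have hx : x = N * (x / N) + x % N := (Int.mul_ediv_add_emod x N).symm
  have h0 := Int.emod_nonneg x hN.ne'
  have h1 := Int.emod_lt_of_pos x hN
  generalize x % N = y at *
  split_ifs with h
  · have h2 : x - 1 = (N - 1) + N * (x / N - 1) := by rw [mul_sub, mul_one]; linarith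
    rw [h2, Int.add_mul_emod_self_left, Int.emod_eq_of_lt (by omega) (by omega)]
  · have h2 : x - 1 = (y - 1) + N * (x / N) := by linarith
    rw [h2, Int.add_mul_emod_self_left, Int.emod_eq_of_lt (by omega) (by omega)]

lemma lap (k : ℕ) (x : ℤ) :
    (gg k (x + 1) + gg k (x - 1)) / 2 = gg k x + (if (2:ℤ) ^ k ∣ x then 1 else 0) - 1 / 2 ^ k := by
  have hN : (0:ℤ) < 2 ^ k := by positivity
  have hNr : (0:ℝ) < 2 ^ k := by positivity
  have e1 : gg k (x + 1) =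
      (((x % 2 ^ k : ℤ) : ℝ) + 1) * (2 ^ k - (((x % 2 ^ k : ℤ) : ℝ) + 1)) / 2 ^ k := by
    unfold gg
    rw [emod_succ _ hN]
    split_ifs with h
    · have : ((x % 2 ^ k : ℤ) : ℝ) + 1 = 2 ^ k := by exact_mod_cast h
      rw [this]; simp
    · push_cast; ring
  have e2 : gg k (x - 1) =
      (((x % 2 ^ k : ℤ) : ℝ) - 1) * (2 ^ k - (((x % 2 ^ k : ℤ) : ℝ) - 1)) / 2 ^ k
        + 2 * (if (2:ℤ) ^ k ∣ x then 1 else 0) := by
    unfold gg
    rw [emod_pred _ hN]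
    by_cases h : x % 2 ^ k = 0
    · have h' : (2:ℤ) ^ k ∣ x := Int.dvd_of_emod_eq_zero h
      rw [if_pos h, if_pos h', h]
      push_cast
      field_simp
      ring
    · have h' : ¬ (2:ℤ) ^ k ∣ x := fun h'' => h (Int.emod_eq_zero_of_dvd h'')
      rw [if_neg h, if_neg h']
      push_cast; ring
  rw [e1, e2]
  unfold gg
  field_simp
  ring

lemma emod_bd (k : ℕ) (x : ℤ) : (0:ℝ) ≤ ((x % 2 ^ k : ℤ) : ℝ) ∧ ((x % 2 ^ k : ℤ) : ℝ) ≤ 2 ^ k := by
  have hN : (0:ℤ) < 2 ^ k := by positivity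
  have h0 := Int.emod_nonneg x hN.ne'
  have h1 := (Int.emod_lt_of_pos x hN).le
  exact ⟨by exact_mod_cast h0, by exact_mod_cast h1⟩

lemma gg_le (k : ℕ) (x : ℤ) : gg k x ≤ ((x % 2 ^ k : ℤ) : ℝ) := by
  have hN : (0:ℝ) < 2 ^ k := by positivity
  obtain ⟨h0, h1⟩ := emod_bd k x
  unfold gg
  rw [div_le_iff₀ hN]
  nlinarith

lemma gg_nonneg (k : ℕ) (x : ℤ) : 0 ≤ gg k x := by
  obtain ⟨h0, h1⟩ := emod_bd k x
  unfold gg
  apply div_nonneg (mul_nonneg h0 (by linarith)) (by positivity)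

lemma gg_le_self (k a : ℕ) : gg k (a : ℤ) ≤ a := by
  refine (gg_le k a).trans ?_
  have : (a : ℤ) % 2 ^ k ≤ a := by exact_mod_cast Nat.mod_le a (2 ^ k)
  exact_mod_cast this

/-- the correction of the potential -/
noncomputable def pp (m K r a : ℕ) : ℝ :=
  (3 + m) * (if a ≡ r [MOD 2 ^ m] then 1 else 0) + ∑ k ∈ Ioc m K, (if 2 ^ k ∣ a then (1:ℝ) else 0)

/-- the potential -/
noncomputable def UU (m K r : ℕ) (z : ℕ × ℤ) : ℝ :=
  (m + 4) * (2 ^ m - gg m ((z.1:ℤ) - r)) + ∑ k ∈ Ioc m K, ((z.1:ℝ) - gg k (z.1 : ℤ))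
    + (3 + K - pp m K r z.1)
    + (if 1 ≤ z.1 ∧ z.1 ≡ r [MOD 2 ^ m] then (w z : ℝ) else 0)

lemma pp_le (m K r a : ℕ) (hmK : m ≤ K) : pp m K r a ≤ 3 + K := by
  unfold pp
  have h1 : ∑ k ∈ Ioc m K, (if 2 ^ k ∣ a then (1:ℝ) else 0) ≤ ∑ k ∈ Ioc m K, (1:ℝ) := by
    apply sum_le_sum
    intro k _
    split_ifs <;> norm_num
  rw [sum_const, Nat.card_Ioc, nsmul_eq_mul, mul_one, Nat.cast_sub hmK] at h1
  have h2 : (3 + (m:ℝ)) * (if a ≡ r [MOD 2 ^ m] then 1 else 0) ≤ 3 + m := by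
    have : (0:ℝ) ≤ m := Nat.cast_nonneg m
    split_ifs <;> linarith
  linarith

lemma pp_nonneg (m K r a : ℕ) : 0 ≤ pp m K r a := by
  unfold pp
  apply add_nonneg
  · apply mul_nonneg (by positivity)
    split_ifs <;> norm_num
  · apply sum_nonneg
    intro k _
    split_ifs <;> norm_num

lemma w_le_pp (m K r a : ℕ) (b : ℤ) (ha : a ≠ 0) (haK : a ≤ 2 ^ K) (hr : a ≡ r [MOD 2 ^ m]) :
    (w (a, b) : ℝ) ≤ pp m K r a := by
  have h1 := w_le a ha b
  set v := padicValNat 2 a with hv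
  have hdv : 2 ^ v ∣ a := pow_padicValNat_dvd
  have hvK : v ≤ K := by
    have := (Nat.le_of_dvd (Nat.pos_of_ne_zero ha) hdv).trans haK
    exact (Nat.pow_le_pow_iff_right (by norm_num)).mp this
  unfold pp
  rw [if_pos hr]
  have h2 : ∑ k ∈ Ioc m v, (1:ℝ) ≤ ∑ k ∈ Ioc m K, (if 2 ^ k ∣ a then (1:ℝ) else 0) := by
    calc ∑ k ∈ Ioc m v, (1:ℝ) = ∑ k ∈ Ioc m v, (if 2 ^ k ∣ a then (1:ℝ) else 0) := by
          apply sum_congr rfl
          intro k hk
          rw [mem_Ioc] at hk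
          rw [if_pos ((pow_dvd_pow 2 hk.2).trans hdv)]
      _ ≤ _ := by
          apply sum_le_sum_of_subset_of_nonneg (Ioc_subset_Ioc_right hvK)
          intro k _ _
          split_ifs <;> norm_num
  rw [sum_const, Nat.card_Ioc, nsmul_eq_mul, mul_one] at h2
  have h3 : ((v:ℝ) - m) ≤ ((v - m : ℕ) : ℝ) := by
    have : v ≤ (v - m) + m := by omega
    have : (v:ℝ) ≤ ((v - m : ℕ) : ℝ) + m := by exact_mod_cast this
    linarith
  have h4 : (w (a, b) : ℝ) ≤ v + 3 := by exact_mod_cast h1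
  linarith

lemma UU_nonneg (m K r : ℕ) (hmK : m ≤ K) (z : ℕ × ℤ) : 0 ≤ UU m K r z := by
  unfold UU
  have h1 : 0 ≤ ((m:ℝ) + 4) * (2 ^ m - gg m ((z.1:ℤ) - r)) := by
    apply mul_nonneg (by positivity)
    have := (gg_le m ((z.1:ℤ) - r)).trans (emod_bd m ((z.1:ℤ) - r)).2
    linarith
  have h2 : 0 ≤ ∑ k ∈ Ioc m K, ((z.1:ℝ) - gg k (z.1 : ℤ)) := by
    apply sum_nonneg
    intro k _
    have := gg_le_self k z.1
    linarith
  have h3 := pp_le m K r z.1 hmK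
  have h4 : (0:ℝ) ≤ (if 1 ≤ z.1 ∧ z.1 ≡ r [MOD 2 ^ m] then (w z : ℝ) else 0) := by
    split_ifs
    · positivity
    · exact le_rfl
  linarith

lemma UU_le (m K r : ℕ) (z : ℕ × ℤ) (hz : z.1 ≤ 2 ^ K) :
    UU m K r z ≤ (m + 4) * 2 ^ m + K * (z.1 + 2) + 6 := by
  unfold UU
  have h1 : ((m:ℝ) + 4) * (2 ^ m - gg m ((z.1:ℤ) - r)) ≤ (m + 4) * 2 ^ m := by
    have := gg_nonneg m ((z.1:ℤ) - r)
    apply mul_le_mul_of_nonneg_left _ (by positivity)
    linarith
  have h2 : ∑ k ∈ Ioc m K, ((z.1:ℝ) - gg k (z.1 : ℤ)) ≤ K * z.1 := by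
    calc ∑ k ∈ Ioc m K, ((z.1:ℝ) - gg k (z.1 : ℤ)) ≤ ∑ k ∈ Ioc m K, (z.1:ℝ) := by
          apply sum_le_sum
          intro k _
          have := gg_nonneg k (z.1 : ℤ)
          linarith
      _ ≤ K * z.1 := by
          rw [sum_const, Nat.card_Ioc, nsmul_eq_mul]
          apply mul_le_mul_of_nonneg_right _ (by positivity)
          exact_mod_cast Nat.sub_le K m
  have h3 := pp_nonneg m K r z.1
  have h4 : (if 1 ≤ z.1 ∧ z.1 ≡ r [MOD 2 ^ m] then (w z : ℝ) else 0) ≤ pp m K r z.1 := by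
    split_ifs with h
    · exact w_le_pp m K r z.1 z.2 (by omega) hz h.2
    · exact h3
  have h5 : (0:ℝ) ≤ K := Nat.cast_nonneg K
  nlinarith

lemma sum_inv (m K : ℕ) (hmK : m ≤ K) : ∑ k ∈ Ioc m K, (1:ℝ) / 2 ^ k = 1 / 2 ^ m - 1 / 2 ^ K := by
  induction K, hmK using Nat.le_induction with
  | base => simp
  | succ n hn ih =>
    rw [sum_Ioc_succ_top hn, ih, pow_succ]
    field_simp
    ring

lemma modeq_iff (m a r : ℕ) : (2:ℤ) ^ m ∣ (a:ℤ) - r ↔ a ≡ r [MOD 2 ^ m] := by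
  rw [Nat.ModEq.comm, Nat.modEq_iff_dvd]
  push_cast
  rfl

lemma drift (m K r : ℕ) (hmK : m ≤ K) (z : ℕ × ℤ) (hz : 1 ≤ z.1) (hz' : z.1 < 2 ^ K) :
    rs m r z + av (UU m K r) z ≤ UU m K r z + (m + 5) / 2 ^ m := by
  have hc : (0:ℝ) ≤ (m + 5) / 2 ^ m := by positivity
  rcases state_cases z with ⟨k, rfl⟩ | ⟨a, k, rfl⟩ | ⟨k, rfl⟩ | ⟨a, k, rfl⟩
  · simp at hz
  · -- even
    rw [av_even]
    have h1 := av_w_succ a k
    rw [av_even] at h1
    unfold UU rs
    simp only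
    by_cases hr : a + 1 ≡ r [MOD 2 ^ m]
    · have h2 : 1 ≤ a + 1 ∧ a + 1 ≡ r [MOD 2 ^ m] := ⟨by omega, hr⟩
      rw [if_pos hr, if_pos h2, if_pos h2, if_pos h2]
      linarith
    · have h2 : ¬ (1 ≤ a + 1 ∧ a + 1 ≡ r [MOD 2 ^ m]) := fun h => hr h.2
      rw [if_neg hr, if_neg h2, if_neg h2, if_neg h2]
      linarith
  · simp at hz
  · -- odd
    rw [av_odd_succ]
    have hA : rs m r (a + 1, 2 * k + 1) = (if a + 1 ≡ r [MOD 2 ^ m] then (1:ℝ) else 0) := rfl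
    have hL := lap m (((a:ℤ) + 1) - r)
    have hL' : (2:ℤ) ^ m ∣ ((a:ℤ) + 1) - r ↔ a + 1 ≡ r [MOD 2 ^ m] := by
      have := modeq_iff m (a + 1) r
      push_cast at this
      exact this
    rw [if_congr hL' rfl rfl] at hL
    have hS : (∑ k ∈ Ioc m K, (((a + 2 : ℕ):ℝ) - gg k ((a + 2 : ℕ) : ℤ))
        + ∑ k ∈ Ioc m K, (((a : ℕ):ℝ) - gg k ((a : ℕ) : ℤ))) / 2
        = ∑ k ∈ Ioc m K, (((a + 1 : ℕ):ℝ) - gg k ((a + 1 : ℕ) : ℤ))
          - ∑ k ∈ Ioc m K, (if 2 ^ k ∣ a + 1 then (1:ℝ) else 0) + ∑ k ∈ Ioc m K, (1:ℝ) / 2 ^ k := by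
      rw [← sum_add_distrib, ← sum_sub_distrib, ← sum_add_distrib, sum_div]
      apply sum_congr rfl
      intro k _
      have hk := lap k ((a:ℤ) + 1)
      have hk' : (2:ℤ) ^ k ∣ (a:ℤ) + 1 ↔ 2 ^ k ∣ a + 1 := by
        constructor
        · intro h; exact_mod_cast h
        · intro h; exact_mod_cast h
      rw [if_congr hk' rfl rfl] at hk
      have e1 : gg k (((a + 2 : ℕ)) : ℤ) = gg k ((a:ℤ) + 1 + 1) := by
        congr 1
      have e2 : gg k ((a : ℕ) : ℤ) = gg k ((a:ℤ) + 1 - 1) := by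
        congr 1; ring
      have e3 : gg k (((a + 1 : ℕ)) : ℤ) = gg k ((a:ℤ) + 1) := by
        congr 1
      rw [e1, e2, e3]
      push_cast
      linarith
    rw [sum_inv m K hmK] at hS
    have hw1 : (if 1 ≤ a + 2 ∧ a + 2 ≡ r [MOD 2 ^ m] then (w (a + 2, 3 * k + 2) : ℝ) else 0)
        ≤ pp m K r (a + 2) := by
      split_ifs with h
      · exact w_le_pp m K r _ _ (by omega) (by simp only at hz'; omega) h.2
      · exact pp_nonneg _ _ _ _
    have hw2 : (if 1 ≤ a ∧ a ≡ r [MOD 2 ^ m] then (w (a, k - e a) : ℝ) else 0)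
        ≤ pp m K r a := by
      split_ifs with h
      · exact w_le_pp m K r _ _ (by omega) (by simp only at hz'; omega) h.2
      · exact pp_nonneg _ _ _ _
    have hw3 : (if 1 ≤ a + 1 ∧ a + 1 ≡ r [MOD 2 ^ m] then (w (a + 1, 2 * k + 1) : ℝ) else 0) = 0 := by
      rw [w_odd]; simp
    have hp : pp m K r (a + 1) = (3 + m) * (if a + 1 ≡ r [MOD 2 ^ m] then 1 else 0)
      + ∑ k ∈ Ioc m K, (if 2 ^ k ∣ a + 1 then (1:ℝ) else 0) := rfl
    rw [hA]
    unfold UU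
    simp only
    rw [hw3]
    have e1 : (((a + 2 : ℕ)) : ℤ) - r = (a:ℤ) + 1 - r + 1 := by push_cast; ring
    have e2 : ((a : ℕ) : ℤ) - r = (a:ℤ) + 1 - r - 1 := by ring
    have e3 : (((a + 1 : ℕ)) : ℤ) - r = (a:ℤ) + 1 - r := by push_cast; ring
    rw [e1, e3, e2]
    have hK : (0:ℝ) ≤ 1 / 2 ^ K := by positivity
    have hm : ((m:ℝ) + 5) / 2 ^ m = (m + 4) * (1 / 2 ^ m) + 1 / 2 ^ m := by ring
    rw [hm]
    generalize gg m ((a:ℤ) + 1 - r + 1) = g1 at *
    generalize gg m ((a:ℤ) + 1 - r - 1) = g2 at *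
    generalize gg m ((a:ℤ) + 1 - r) = g3 at *
    have hL2 : ((m:ℝ) + 4) * ((g1 + g2) / 2) = (m + 4) * (g3 + (if a + 1 ≡ r [MOD 2 ^ m] then 1 else 0) - 1 / 2 ^ m) := by
      rw [hL]
    generalize (if a + 1 ≡ r [MOD 2 ^ m] then (1:ℝ) else 0) = δ at *
    nlinarith

theorem occ : S_Occ := by
  intro m K t r z hmK hz
  have hc : (0:ℝ) ≤ (m + 5) / 2 ^ m := by positivity
  have key : ∀ t : ℕ, ∀ z : ℕ × ℤ, z.1 + t ≤ 2 ^ K → ac (rs m r) t z ≤ (m + 5) / 2 ^ m * t + UU m K r z := by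
    intro t
    induction t with
    | zero =>
      intro z _
      simp only [ac, Nat.cast_zero, mul_zero, zero_add]
      exact UU_nonneg m K r hmK z
    | succ t ih =>
      intro z hz
      simp only [ac]
      split_ifs with h
      · have := UU_nonneg m K r hmK z
        push_cast
        have : (0:ℝ) ≤ (m + 5) / 2 ^ m * (t + 1) := by positivity
        linarith
      · have h1 := drift m K r hmK z (by omega) (by omega)
        have h2 : av (ac (rs m r) t) z ≤ (m + 5) / 2 ^ m * t + av (UU m K r) z := by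
          have hs : ∀ c : Bool, (step c z).1 ≤ z.1 + 1 := by
            intro c
            unfold step
            split_ifs <;> simp; omega
          have h3 := ih (step false z) (by have := hs false; omega)
          have h4 := ih (step true z) (by have := hs true; omega)
          unfold av
          linarith
        push_cast
        linarith
  exact (key t z hz).trans (by have := UU_le m K r z (by omega); linarith)

end Pool.Agent.Q144.AR
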